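import Pool.Agent.Helper54.DI.StmtsB

namespace Pool.Agent.Helper54.DI

open Finset Filter Topology Pool.Agent.Helper54.ETR Pool.Agent.Helper54.Poly

/-- the polynomial of a term -/
noncomputable def safPol (k : ℕ) : Term → MvPolynomial (Fin k) KK
  | Term.zero => 0
  | Term.one => 1
  | Term.var i => if h : i < k then MvPolynomial.X ⟨i, h⟩ else 0
  | Term.add s t => safPol k s + safPol k t
  | Term.sub s t => safPol k s - safPol k t
  | Term.mul s t => safPol k s * safPol k t

theorem saf_aeval (k : ℕ) (x : Fin k → ℝ) (t : Term) :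
    MvPolynomial.aeval x (safPol k t) = t.eval (ext0 x) := by
  induction t with
  | zero => simp [safPol, Term.eval]
  | one => simp [safPol, Term.eval]
  | var i =>
    by_cases h : i < k
    · simp [safPol, Term.eval, ext0, h]
    · simp [safPol, Term.eval, ext0, h]
  | add s t ihs iht => simp [safPol, Term.eval, ihs, iht]
  | sub s t ihs iht => simp [safPol, Term.eval, ihs, iht]
  | mul s t ihs iht => simp [safPol, Term.eval, ihs, iht]

theorem saf_lt {a b c d : ℝ} (h : SignType.sign (a - b) = SignType.sign (c - d)) :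
    a < b ↔ c < d := by
  rw [← sub_neg, ← sub_neg (a := c), ← sign_eq_neg_one_iff, ← sign_eq_neg_one_iff, h]

theorem saf_eq {a b c d : ℝ} (h : SignType.sign (a - b) = SignType.sign (c - d)) :
    a = b ↔ c = d := by
  rw [← sub_eq_zero, ← sub_eq_zero (a := c)]
  constructor
  · intro h0
    rw [h0, sign_zero] at h
    exact sign_eq_zero_iff.mp h.symm
  · intro h0
    rw [h0, sign_zero] at h
    exact sign_eq_zero_iff.mp h

theorem saf_le {a b c d : ℝ} (h : SignType.sign (a - b) = SignType.sign (c - d)) :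
    a ≤ b ↔ c ≤ d := by
  rw [le_iff_lt_or_eq, le_iff_lt_or_eq, saf_lt h, saf_eq h]

theorem saf_gt {a b c d : ℝ} (h : SignType.sign (a - b) = SignType.sign (c - d)) :
    a > b ↔ c > d := by
  rw [gt_iff_lt, gt_iff_lt, ← not_le, ← not_le, saf_le h]

theorem saf_ge {a b c d : ℝ} (h : SignType.sign (a - b) = SignType.sign (c - d)) :
    a ≥ b ↔ c ≥ d := by
  rw [ge_iff_le, ge_iff_le, ← not_lt, ← not_lt, saf_lt h]

theorem saf_holds (x y : ℕ → ℝ) (p : Form) :
    (∀ a ∈ p.atoms, SignType.sign (a.1.eval x - a.2.eval x) =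
      SignType.sign (a.1.eval y - a.2.eval y)) → (p.Holds x ↔ p.Holds y) := by
  induction p with
  | lt s t => intro h; exact saf_lt (h (s, t) (by simp [Form.atoms]))
  | le s t => intro h; exact saf_le (h (s, t) (by simp [Form.atoms]))
  | eq s t => intro h; exact saf_eq (h (s, t) (by simp [Form.atoms]))
  | ge s t => intro h; exact saf_ge (h (s, t) (by simp [Form.atoms]))
  | gt s t => intro h; exact saf_gt (h (s, t) (by simp [Form.atoms]))
  | and p q ihp ihq =>
    intro h
    exact and_congr (ihp fun a ha => h a (by simp [Form.atoms, ha]))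
      (ihq fun a ha => h a (by simp [Form.atoms, ha]))
  | or p q ihp ihq =>
    intro h
    exact or_congr (ihp fun a ha => h a (by simp [Form.atoms, ha]))
      (ihq fun a ha => h a (by simp [Form.atoms, ha]))
  | not p ihp =>
    intro h
    exact not_congr (ihp fun a ha => h a ha)

theorem st_SAF : ST_SAF := by
  intro ρ k _
  refine ⟨ρ.atoms.map (fun a => safPol k a.1 - safPol k a.2), ?_⟩
  intro x y h
  show ρ.Holds (ext0 x) ↔ ρ.Holds (ext0 y)
  apply saf_holds
  intro a ha
  have h1 := h (safPol k a.1 - safPol k a.2) (List.mem_map.mpr ⟨a, ha, rfl⟩)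
  have h2 : ∀ z : Fin k → ℝ, MvPolynomial.aeval z (safPol k a.1 - safPol k a.2) =
      a.1.eval (ext0 z) - a.2.eval (ext0 z) := by
    intro z
    rw [← saf_aeval, ← saf_aeval]
    exact map_sub _ _ _
  rw [h2 x, h2 y] at h1
  exact h1

theorem saf_evalcongr (n : ℕ) (x y : ℕ → ℝ) (h : ∀ i < n, x i = y i) (t : Term) :
    t.Below n → t.eval x = t.eval y := by
  induction t with
  | zero => intro _; rfl
  | one => intro _; rfl
  | var i => intro hi; exact h i hi
  | add s t ihs iht => intro ht; simp only [Term.eval]; rw [ihs ht.1, iht ht.2]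
  | sub s t ihs iht => intro ht; simp only [Term.eval]; rw [ihs ht.1, iht ht.2]
  | mul s t ihs iht => intro ht; simp only [Term.eval]; rw [ihs ht.1, iht ht.2]

theorem saf_holdscongr (n : ℕ) (x y : ℕ → ℝ) (h : ∀ i < n, x i = y i) (p : Form)
    (hp : FBelow n p) : p.Holds x ↔ p.Holds y := by
  apply saf_holds
  intro a ha
  rw [saf_evalcongr n x y h a.1 (hp a ha).1, saf_evalcongr n x y h a.2 (hp a ha).2]

theorem st_SLF : ST_SLF := by
  intro ρ k hρ hF
  obtain ⟨F, hF⟩ := hF
  let a : Fin F.length → ℕ → ℝ := fun i j =>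
    match j with
    | 0 => ((F.get i).2 : ℝ)
    | j + 1 => if h : j < k then ((F.get i).1 ⟨j, h⟩ : ℝ) else 0
  have key : ∀ (i : Fin F.length) (x : ℕ → ℝ),
      a i 0 + ∑ j ∈ Finset.range k, a i (j + 1) * x j = kev (F.get i) (fun j : Fin k => x j) := by
    intro i x
    rw [Finset.sum_range, kev, add_comm]
    congr 1
    apply Finset.sum_congr rfl
    intro j _
    show (if h : (j : ℕ) < k then ((F.get i).1 ⟨j, h⟩ : ℝ) else 0) * x j = _
    rw [dif_pos j.2]
  have hext : ∀ x : ℕ → ℝ, ρ.Holds x ↔ ρ.Holds (ext0 (fun j : Fin k => x j)) := by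
    intro x
    apply saf_holdscongr k
    · intro i hi
      simp [ext0, hi]
    · exact hρ
  refine ⟨F.length, k, a, ?_, ?_⟩
  · have hK : ∀ z : KK, IsAlgebraic ℚ (z : ℝ) := fun z => mem_algebraicClosure_iff.mp z.2
    intro i j
    cases j with
    | zero => exact hK _
    | succ j =>
      show IsAlgebraic ℚ (if h : j < k then ((F.get i).1 ⟨j, h⟩ : ℝ) else 0)
      by_cases h : j < k
      · rw [dif_pos h]
        exact hK _
      · rw [dif_neg h]
        exact isAlgebraic_zero
  · intro x y h
    rw [hext x, hext y]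
    apply hF
    intro f hf
    obtain ⟨i, hi⟩ := List.get_of_mem hf
    rw [← hi, ← key, ← key]
    exact h i

end Pool.Agent.Helper54.DI
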